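import Mathlib

/-!
# The mixed metric dimension of a 2-connected graph is at most twice its cyclomatic number

For every finite 2-connected graph `G` which is not a cycle, `mdim G ≤ 2 * c(G)`, where
`c(G) = m - n + 1`.

Proof. If all degrees are at least three, then `n ≤ 2 c(G)` and all vertices together resolve.
Otherwise there is an edge `w w'` with `deg w ≥ 3` and `deg w' = 2`. As `G - w'` is connected, there
is a root `r` such that `d(r, w') ≤ d(r, w)` and `w` has a neighbour `q ≠ w'` which is closer to `r`
than `w`. Take a breadth first search tree `T` rooted at `r` in which `q` is the parent of `w`. Let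
`S` be the set of the ends of the `c(G)` edges outside of `T`. The set `S ∪ {r}` is a mixed resolving
set. If `w` is on two edges outside of `T`, then it has at most `2 c(G)` elements. Otherwise `w` is
an inner vertex of `T`, and then `(S \ {w}) ∪ {r}` is a mixed resolving set, too.
-/

set_option autoImplicit false

namespace Pool.Agent.Results.MP_ca4ce9_co.TwoConnected

open SimpleGraph Finset

/-- The distance in `G` from the vertex `w` to an element of `G`, that is, to a vertex or to an
edge; the distance to an edge `uv` is `min (d(w, u)) (d(w, v))`. -/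
noncomputable def elementDist {V : Type*} (G : SimpleGraph V) (w : V) : V ⊕ G.edgeSet → ℕ
  | Sum.inl v => G.dist w v
  | Sum.inr e => Sym2.lift
      ⟨fun u v => min (G.dist w u) (G.dist w v), fun _ _ => min_comm _ _⟩ (e : Sym2 V)

/-- `S` is a mixed resolving set of `G`: any two distinct elements (vertices or edges) of `G` have
different distances to some vertex of `S`. -/
def IsMixedResolving {V : Type*} (G : SimpleGraph V) (S : Finset V) : Prop :=
  ∀ x y : V ⊕ G.edgeSet, x ≠ y → ∃ s ∈ S, elementDist G s x ≠ elementDist G s y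

/-- The mixed metric dimension: the smallest size of a mixed resolving set. -/
noncomputable def mdim {V : Type*} (G : SimpleGraph V) : ℕ :=
  sInf {k : ℕ | ∃ S : Finset V, S.card = k ∧ IsMixedResolving G S}

/-- The cyclomatic number `m - n + 1` of a graph with `n` vertices and `m` edges. -/
noncomputable def cyclomatic {V : Type*} (G : SimpleGraph V) : ℤ :=
  (Nat.card G.edgeSet : ℤ) - Nat.card V + 1

/-- `G` is 2-connected: it is connected, has at least three vertices and has no cut-vertex. -/
def IsTwoConnected {V : Type*} (G : SimpleGraph V) : Prop :=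
  3 ≤ Nat.card V ∧ G.Connected ∧ ∀ v : V, (G.induce ({v}ᶜ : Set V)).Connected

section tree

variable {V : Type*} {G : SimpleGraph V} {r : V} {p : V → V}

/-- `p` is the parent function of a breadth first search tree rooted at `r`. -/
structure IsParent (G : SimpleGraph V) (r : V) (p : V → V) : Prop where
  root : p r = r
  adj : ∀ v, v ≠ r → G.Adj v (p v)
  dist : ∀ v, v ≠ r → G.dist r (p v) + 1 = G.dist r v

/-- An edge outside of the tree. -/
def Cotree (G : SimpleGraph V) (p : V → V) (u v : V) : Prop :=
  G.Adj u v ∧ p u ≠ v ∧ p v ≠ u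

lemma Cotree.symm {u v : V} (h : Cotree G p u v) : Cotree G p v u :=
  ⟨h.1.symm, h.2.2, h.2.1⟩

lemma exists_pred (hG : G.Connected) {y s : V} (h : y ≠ s) :
    ∃ u, G.Adj u s ∧ G.dist y u + 1 = G.dist y s := by
  obtain ⟨q, hq⟩ := hG.exists_walk_length_eq_dist s y
  cases q with
  | nil => exact absurd rfl h
  | @cons _ u _ h1 q =>
    refine ⟨u, h1.symm, ?_⟩
    rw [Walk.length_cons] at hq
    have h2 : G.dist u y ≤ q.length := dist_le q
    have h3 : G.dist s y ≤ G.dist s u + G.dist u y := hG.dist_triangle
    have h4 : G.dist s u = 1 := dist_eq_one_iff_adj.2 h1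
    rw [dist_comm (u := y) (v := u), dist_comm (u := y) (v := s)]
    omega

lemma exists_up (hG : G.Connected) {y s : V} (h : G.dist r y + G.dist y s = G.dist r s)
    (hne : y ≠ s) :
    ∃ u, G.Adj u s ∧ G.dist r u + 1 = G.dist r s ∧ G.dist r y + G.dist y u = G.dist r u := by
  obtain ⟨u, h1, h2⟩ := exists_pred hG hne
  have h3 : G.dist r u ≤ G.dist r y + G.dist y u := hG.dist_triangle
  have h4 : G.dist r s ≤ G.dist r u + G.dist u s := hG.dist_triangle
  have h5 : G.dist u s = 1 := dist_eq_one_iff_adj.2 h1
  exact ⟨u, h1, by omega, by omega⟩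

lemma dist_adj_le (hG : G.Connected) {a b : V} (h : G.Adj a b) (t : V) :
    G.dist t b ≤ G.dist t a + 1 := by
  have h4 : G.dist t b ≤ G.dist t a + G.dist a b := hG.dist_triangle
  have h5 : G.dist a b = 1 := dist_eq_one_iff_adj.2 h
  omega

lemma parent_le (hp : IsParent G r p) (v : V) : G.dist r (p v) ≤ G.dist r v := by
  by_cases h : v = r
  · subst h; rw [hp.root]
  · have := hp.dist v h
    omega

lemma iter_dist (hG : G.Connected) (hp : IsParent G r p) (s : V) :
    ∀ k : ℕ, G.dist (p^[k] s) s ≤ k := by
  intro k
  induction k with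
  | zero => simp
  | succ k ih =>
    rw [Function.iterate_succ_apply']
    set v := p^[k] s
    by_cases h : v = r
    · have : p v = v := by rw [h, hp.root]
      rw [this]
      omega
    · have h1 : G.dist (p v) s ≤ G.dist (p v) v + G.dist v s := hG.dist_triangle
      have h2 : G.dist (p v) v = 1 := dist_eq_one_iff_adj.2 (hp.adj v h).symm
      omega

lemma iter_anc (hG : G.Connected) (hp : IsParent G r p) {x s : V} {k : ℕ}
    (h : p^[k] s = x) (hk : G.dist r s = G.dist r x + k) :
    G.dist r x + G.dist x s = G.dist r s := by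
  have h1 := iter_dist hG hp s k
  rw [h] at h1
  have h2 : G.dist r s ≤ G.dist r x + G.dist x s := hG.dist_triangle
  omega

/-- Every vertex has a descendant in a set which contains all leaves of the tree. -/
lemma exists_desc [Finite V] (hp : IsParent G r p) {R : Set V}
    (hleaf : ∀ v, v ∉ R → ∃ x, x ≠ r ∧ p x = v) (x : V) :
    ∃ k : ℕ, ∃ s ∈ R, p^[k] s = x ∧ G.dist r s = G.dist r x + k := by
  obtain ⟨N, hN⟩ : ∃ N : ℕ, ∀ v, G.dist r v < N := by
    obtain ⟨N, hN⟩ := (Set.finite_range (fun v => G.dist r v)).bddAbove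
    exact ⟨N + 1, fun v => Nat.lt_succ_of_le (hN ⟨v, rfl⟩)⟩
  have key : ∀ m : ℕ, ∀ x, N ≤ G.dist r x + m →
      ∃ k : ℕ, ∃ s ∈ R, p^[k] s = x ∧ G.dist r s = G.dist r x + k := by
    intro m
    induction m with
    | zero =>
      intro x hx
      have := hN x
      omega
    | succ m ih =>
      intro x hx
      by_cases hxR : x ∈ R
      · exact ⟨0, x, hxR, rfl, rfl⟩
      · obtain ⟨c, hc1, hc2⟩ := hleaf x hxR
        have h1 := hp.dist c hc1
        rw [hc2] at h1
        obtain ⟨k, s, hs, h2, h3⟩ := ih c (by omega)
        refine ⟨k + 1, s, hs, ?_, by omega⟩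
        rw [Function.iterate_succ_apply', h2, hc2]
  exact key N x (by omega)

/-- Two vertices on the same level which have the same descendants (with respect to shortest paths
from the root) in `R` are equal, if `R` contains the leaves of the tree and the upper ends of the
edges outside of the tree between different levels. -/
lemma eq_of_anc [Finite V] (hG : G.Connected) (hp : IsParent G r p) {R : Set V}
    (hleaf : ∀ v, v ∉ R → ∃ x, x ≠ r ∧ p x = v)
    (hup : ∀ u v, Cotree G p u v → G.dist r v = G.dist r u + 1 → u ∈ R)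
    {x y : V} (hD : G.dist r x = G.dist r y)
    (h : ∀ t ∈ R, (G.dist r x + G.dist x t = G.dist r t ↔ G.dist r y + G.dist y t = G.dist r t)) :
    x = y := by
  classical
  have hex := exists_desc hp hleaf x
  set k := Nat.find hex with hk
  obtain ⟨s, hs, hsx, hsD⟩ := Nat.find_spec hex
  have hmin : ∀ j, j < k → ∀ u, u ∈ R → p^[j] u = x → G.dist r u = G.dist r x + j → False := by
    intro j hj u hu h1 h2
    exact Nat.find_min hex hj ⟨u, hu, h1, h2⟩
  -- descendants of `x` above the level of `s` are descendants in the tree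
  have hB : ∀ j, j < k → ∀ u, G.dist r x + G.dist x u = G.dist r u →
      G.dist r u = G.dist r x + j → p^[j] u = x := by
    intro j
    induction j with
    | zero =>
      intro _ u h1 h2
      have : G.dist x u = 0 := by omega
      rw [hG.dist_eq_zero_iff] at this
      exact this.symm
    | succ j ih =>
      intro hj u h1 h2
      have hne : x ≠ u := by
        rintro rfl
        omega
      obtain ⟨t, ht1, ht2, ht3⟩ := exists_up hG h1 hne
      have h3 := ih (by omega) t ht3 (by omega)
      have h4 : p u = t := by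
        by_contra hcon
        have hc : Cotree G p t u := by
          refine ⟨ht1, ?_, hcon⟩
          intro h5
          have := parent_le hp t
          rw [h5] at this
          omega
        exact hmin j (by omega) t (hup t u hc (by omega)) h3 (by omega)
      rw [Function.iterate_succ_apply, h4, h3]
  have hM : ∀ i, i ≤ k → G.dist r y + G.dist y (p^[i] s) = G.dist r (p^[i] s) ∧
      G.dist r (p^[i] s) + i = G.dist r s := by
    intro i
    induction i with
    | zero =>
      intro _
      refine ⟨(h s hs).1 (iter_anc hG hp hsx hsD), rfl⟩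
    | succ i ih =>
      intro hi
      obtain ⟨h1, h2⟩ := ih (by omega)
      set v := p^[i] s with hv
      have hne : y ≠ v := by
        intro h3
        rw [← h3] at h2
        omega
      obtain ⟨u, hu1, hu2, hu3⟩ := exists_up hG h1 hne
      have h4 : p v = u := by
        by_contra hcon
        have hc : Cotree G p u v := by
          refine ⟨hu1, ?_, hcon⟩
          intro h5
          have := parent_le hp u
          rw [h5] at this
          omega
        have huR := hup u v hc (by omega)
        have h6 := (h u huR).2 hu3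
        have h7 := hB (k - i - 1) (by omega) u h6 (by omega)
        exact hmin (k - i - 1) (by omega) u huR h7 (by omega)
      rw [Function.iterate_succ_apply', ← hv, h4]
      exact ⟨hu3, by omega⟩
  obtain ⟨h1, -⟩ := hM k le_rfl
  rw [hsx] at h1
  have h2 : G.dist y x = 0 := by omega
  rw [hG.dist_eq_zero_iff] at h2
  exact h2.symm

lemma elementDist_inr (t a b : V) (h : G.Adj a b) :
    elementDist G t (Sum.inr ⟨s(a, b), h⟩) = min (G.dist t a) (G.dist t b) := rfl

lemma elementDist_inl (t a : V) : elementDist G t (Sum.inl a) = G.dist t a := rfl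

/-- Sufficient conditions for a set to be mixed resolving. -/
lemma resolves [Finite V] (hG : G.Connected) (hp : IsParent G r p) {R : Finset V} (hr : r ∈ R)
    (hleaf : ∀ v, v ∉ R → ∃ x, x ≠ r ∧ p x = v)
    (hup : ∀ u v, Cotree G p u v → G.dist r v = G.dist r u + 1 → u ∈ R)
    (hh1 : ∀ a b, G.Adj a b → G.dist r a = G.dist r b → a ∈ R ∨ b ∈ R)
    (hh2 : ∀ a b, G.Adj a b → G.dist r a = G.dist r b → ∃ t ∈ R, G.dist t b < G.dist t a)
    (hh3 : ∀ a b, G.Adj a b → G.dist r a = G.dist r b → b ∉ R →
      ∀ c, G.Adj a c → G.dist r a ≤ G.dist r c → c = b) :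
    IsMixedResolving G R := by
  have hleaf' : ∀ v, v ∉ (R : Set V) → ∃ x, x ≠ r ∧ p x = v := fun v hv => hleaf v (by simpa using hv)
  have hup' : ∀ u v, Cotree G p u v → G.dist r v = G.dist r u + 1 → u ∈ (R : Set V) :=
    fun u v h1 h2 => by simpa using hup u v h1 h2
  have hzero : ∀ a b : V, G.dist a b = 0 → a = b := fun a b h => hG.dist_eq_zero_iff.1 h
  have hlow : ∀ t v, G.dist r t ≤ G.dist r v + G.dist t v := by
    intro t v
    rw [dist_comm (u := t) (v := v)]
    exact hG.dist_triangle
  -- the vertex `x` and the vertical edge `ab`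
  have hVv : ∀ x a b : V, ∀ h : G.Adj a b, G.dist r a = G.dist r x →
      G.dist r b = G.dist r a + 1 →
      ∃ t ∈ R, elementDist G t (Sum.inl x) ≠ elementDist G t (Sum.inr ⟨s(a, b), h⟩) := by
    intro x a b h hx hb
    obtain ⟨k, t, ht, h1, h2⟩ := exists_desc hp hleaf' b
    refine ⟨t, by simpa using ht, ?_⟩
    have h3 := iter_anc hG hp h1 h2
    rw [elementDist_inl, elementDist_inr]
    have h4 := hlow t x
    have h5 : G.dist t b = G.dist b t := dist_comm
    have h6 : min (G.dist t a) (G.dist t b) ≤ G.dist t b := min_le_right _ _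
    omega
  -- the vertex `x` and the horizontal edge `ab`
  have hVh : ∀ x a b : V, ∀ h : G.Adj a b, G.dist r a = G.dist r x →
      G.dist r b = G.dist r a →
      ∃ t ∈ R, elementDist G t (Sum.inl x) ≠ elementDist G t (Sum.inr ⟨s(a, b), h⟩) := by
    intro x a b h hx hb
    by_cases hxa : x = a
    · subst hxa
      obtain ⟨t, ht, h1⟩ := hh2 x b h hb.symm
      refine ⟨t, ht, ?_⟩
      rw [elementDist_inl, elementDist_inr]
      have : min (G.dist t x) (G.dist t b) ≤ G.dist t b := min_le_right _ _
      omega
    by_cases hxb : x = b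
    · subst hxb
      obtain ⟨t, ht, h1⟩ := hh2 x a h.symm hb
      refine ⟨t, ht, ?_⟩
      rw [elementDist_inl, elementDist_inr]
      have : min (G.dist t a) (G.dist t x) ≤ G.dist t a := min_le_left _ _
      omega
    rcases hh1 a b h hb.symm with h1 | h1
    · refine ⟨a, h1, ?_⟩
      rw [elementDist_inl, elementDist_inr, dist_self]
      intro h2
      rw [min_eq_left (Nat.zero_le _)] at h2
      exact hxa (hzero _ _ h2).symm
    · refine ⟨b, h1, ?_⟩
      rw [elementDist_inl, elementDist_inr, dist_self]
      intro h2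
      rw [min_eq_right (Nat.zero_le _)] at h2
      exact hxb (hzero _ _ h2).symm
  -- two vertical edges
  have hEvv : ∀ a b c e : V, ∀ (h : G.Adj a b) (h' : G.Adj c e), G.dist r a = G.dist r c →
      G.dist r b = G.dist r a + 1 → G.dist r e = G.dist r c + 1 → ¬ (a = c ∧ b = e) →
      ∃ t ∈ R, elementDist G t (Sum.inr ⟨s(a, b), h⟩) ≠ elementDist G t (Sum.inr ⟨s(c, e), h'⟩) := by
    intro a b c e h h' hac hb he hne
    by_cases hbe : b = e
    · subst hbe
      have hac' : a ≠ c := fun h1 => hne ⟨h1, rfl⟩
      -- one of the two edges is outside of the tree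
      have hcase : (Cotree G p a b) ∨ (Cotree G p c b) := by
        by_cases h1 : p b = a
        · right
          refine ⟨h', ?_, fun h2 => hac' (h1.symm.trans h2)⟩
          intro h2
          have := parent_le hp c
          rw [h2] at this
          omega
        · left
          refine ⟨h, ?_, h1⟩
          intro h2
          have := parent_le hp a
          rw [h2] at this
          omega
      rcases hcase with h1 | h1
      · refine ⟨a, hup a b h1 hb, ?_⟩
        rw [elementDist_inr, elementDist_inr, dist_self, min_eq_left (Nat.zero_le _)]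
        have h2 : 0 < G.dist a c := hG.pos_dist_of_ne hac'
        have h3 : 0 < G.dist a b := hG.pos_dist_of_ne h.ne
        have h4 : 0 < min (G.dist a c) (G.dist a b) := lt_min h2 h3
        omega
      · refine ⟨c, hup c b h1 he, ?_⟩
        rw [elementDist_inr, elementDist_inr, dist_self, min_eq_left (Nat.zero_le (G.dist c b))]
        have h2 : 0 < G.dist c a := hG.pos_dist_of_ne (Ne.symm hac')
        have h3 : 0 < G.dist c b := hG.pos_dist_of_ne h'.ne
        have h4 : 0 < min (G.dist c a) (G.dist c b) := lt_min h2 h3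
        omega
    · by_contra hcon
      push Not at hcon
      apply hbe
      apply eq_of_anc hG hp hleaf' hup' (by omega)
      intro t ht
      have h1 := hcon t (by simpa using ht)
      rw [elementDist_inr, elementDist_inr] at h1
      have h2 := hlow t a
      have h3 := hlow t b
      have h4 := hlow t c
      have h5 := hlow t e
      rw [dist_comm (u := b) (v := t), dist_comm (u := e) (v := t)]
      omega
  -- a horizontal edge `ab` and another edge `ce` of the same level
  have hEh : ∀ a b c e : V, ∀ (h : G.Adj a b) (h' : G.Adj c e), G.dist r a = G.dist r b →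
      G.dist r c = G.dist r a → G.dist r c ≤ G.dist r e → s(a, b) ≠ s(c, e) →
      ∃ t ∈ R, elementDist G t (Sum.inr ⟨s(a, b), h⟩) ≠ elementDist G t (Sum.inr ⟨s(c, e), h'⟩) := by
    intro a b c e h h' hab hca hce hne
    have hend : ∀ a b : V, ∀ h : G.Adj a b, a ∈ R → a ≠ c → a ≠ e →
        ∃ t ∈ R, elementDist G t (Sum.inr ⟨s(a, b), h⟩) ≠
          elementDist G t (Sum.inr ⟨s(c, e), h'⟩) := by
      intro a b h haR h1 h2
      refine ⟨a, haR, ?_⟩
      rw [elementDist_inr, elementDist_inr, dist_self, min_eq_left (Nat.zero_le _)]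
      have h3 : 0 < G.dist a c := hG.pos_dist_of_ne h1
      have h4 : 0 < G.dist a e := hG.pos_dist_of_ne h2
      have h5 : 0 < min (G.dist a c) (G.dist a e) := lt_min h3 h4
      omega
    by_cases h1 : a ∈ R ∧ a ≠ c ∧ a ≠ e
    · exact hend a b h h1.1 h1.2.1 h1.2.2
    by_cases h2 : b ∈ R ∧ b ≠ c ∧ b ≠ e
    · have h3 := hend b a h.symm h2.1 h2.2.1 h2.2.2
      obtain ⟨t, ht, h4⟩ := h3
      refine ⟨t, ht, ?_⟩
      rw [elementDist_inr] at h4 ⊢
      rwa [min_comm] at h4
    exfalso
    have hsame : ∀ a b : V, G.Adj a b → G.dist r a = G.dist r b → G.dist r c = G.dist r a →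
        b ∉ R → (a = c ∨ a = e) → s(a, b) = s(c, e) := by
      intro a b hab' h3 h4 h5 h6
      rcases h6 with rfl | rfl
      · have := hh3 a b hab' h3 h5 e h' hce
        rw [this]
      · have := hh3 a b hab' h3 h5 c h'.symm (by omega)
        rw [this, Sym2.eq_swap]
    by_cases haR : a ∈ R
    · have ha : a = c ∨ a = e := by
        by_contra hcon
        push Not at hcon
        exact h1 ⟨haR, hcon⟩
      by_cases hbR : b ∈ R
      · have hb : b = c ∨ b = e := by
          by_contra hcon
          push Not at hcon
          exact h2 ⟨hbR, hcon⟩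
        have hnab := h.ne
        rcases ha with rfl | rfl <;> rcases hb with rfl | rfl
        · exact hnab rfl
        · exact hne rfl
        · exact hne Sym2.eq_swap
        · exact hnab rfl
      · exact hne (hsame a b h hab hca hbR ha)
    · have hbR : b ∈ R := (hh1 a b h hab).resolve_left haR
      have hb : b = c ∨ b = e := by
        by_contra hcon
        push Not at hcon
        exact h2 ⟨hbR, hcon⟩
      have := hsame b a h.symm hab.symm (by omega) haR hb
      exact hne (by rw [← this, Sym2.eq_swap])
  -- every edge is `ab` with `d(a) ≤ d(b) ≤ d(a) + 1`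
  have hrep : ∀ e : G.edgeSet, ∃ a b : V, ∃ h : G.Adj a b, e = ⟨s(a, b), h⟩ ∧
      (G.dist r b = G.dist r a ∨ G.dist r b = G.dist r a + 1) := by
    rintro ⟨e, he⟩
    induction e using Sym2.ind with
    | _ a b =>
      have hab : G.Adj a b := he
      have h1 := dist_adj_le hG hab r
      have h2 := dist_adj_le hG hab.symm r
      by_cases h3 : G.dist r a ≤ G.dist r b
      · exact ⟨a, b, hab, rfl, by omega⟩
      · refine ⟨b, a, hab.symm, ?_, by omega⟩
        apply Subtype.ext
        exact Sym2.eq_swap
  have hVE : ∀ (x : V) (e : G.edgeSet), ∃ t ∈ R,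
      elementDist G t (Sum.inl x) ≠ elementDist G t (Sum.inr e) := by
    intro x e
    obtain ⟨a, b, h, rfl, h1⟩ := hrep e
    by_cases h2 : G.dist r a = G.dist r x
    · rcases h1 with h1 | h1
      · exact hVh x a b h h2 h1
      · exact hVv x a b h h2 h1
    · refine ⟨r, hr, ?_⟩
      rw [elementDist_inl, elementDist_inr]
      have : min (G.dist r a) (G.dist r b) = G.dist r a := min_eq_left (by omega)
      omega
  intro x y hxy
  rcases x with x | x <;> rcases y with y | y
  · by_contra hcon
    push Not at hcon
    apply hxy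
    congr 1
    have hD := hcon r hr
    rw [elementDist_inl, elementDist_inl] at hD
    apply eq_of_anc hG hp hleaf' hup' hD
    intro t ht
    have h1 := hcon t (by simpa using ht)
    rw [elementDist_inl, elementDist_inl] at h1
    rw [dist_comm (u := x) (v := t), dist_comm (u := y) (v := t), hD, h1]
  · exact hVE x y
  · obtain ⟨t, ht, h⟩ := hVE y x
    exact ⟨t, ht, h.symm⟩
  · obtain ⟨a, b, h, rfl, h1⟩ := hrep x
    obtain ⟨c, e, h', rfl, h2⟩ := hrep y
    by_cases h3 : G.dist r a = G.dist r c
    · rcases h1 with h1 | h1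
      · refine hEh a b c e h h' h1.symm h3.symm (by omega) ?_
        intro h4
        exact hxy (congrArg Sum.inr (Subtype.ext h4))
      · rcases h2 with h2 | h2
        · obtain ⟨t, ht, h4⟩ := hEh c e a b h' h h2.symm h3 (by omega) (by
            intro h4
            exact hxy (congrArg Sum.inr (Subtype.ext h4.symm)))
          exact ⟨t, ht, h4.symm⟩
        · refine hEvv a b c e h h' h3 h1 h2 ?_
          rintro ⟨rfl, rfl⟩
          exact hxy rfl
    · refine ⟨r, hr, ?_⟩
      rw [elementDist_inr, elementDist_inr]
      have h4 : min (G.dist r a) (G.dist r b) = G.dist r a := min_eq_left (by omega)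
      have h5 : min (G.dist r c) (G.dist r e) = G.dist r c := min_eq_left (by omega)
      omega

/-- a parent function exists, with a prescribed value at one vertex -/
lemma exists_parent (hG : G.Connected) {w q : V} (hwr : w ≠ r) (hwq : G.Adj w q)
    (hq : G.dist r q + 1 = G.dist r w) : ∃ p : V → V, IsParent G r p ∧ p w = q := by
  classical
  have h : ∀ v : V, ∃ u : V, (v = r → u = r) ∧ (v ≠ r → G.Adj v u ∧ G.dist r u + 1 = G.dist r v) ∧
      (v = w → u = q) := by
    intro v
    by_cases hv : v = r
    · exact ⟨r, fun _ => rfl, fun h => absurd hv h, fun h => absurd (h.symm.trans hv) hwr⟩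
    by_cases hv' : v = w
    · subst hv'
      exact ⟨q, fun h => absurd h hv, fun _ => ⟨hwq, hq⟩, fun _ => rfl⟩
    · obtain ⟨u, h1, h2⟩ := exists_pred hG (Ne.symm hv)
      exact ⟨u, fun h => absurd h hv, fun _ => ⟨h1.symm, h2⟩, fun h => absurd h hv'⟩
  choose p h1 h2 h3 using h
  exact ⟨p, ⟨h1 r rfl, fun v hv => (h2 v hv).1, fun v hv => (h2 v hv).2⟩, h3 w rfl⟩

section count

variable [Fintype V]

open Classical in
/-- the edges of the tree -/
noncomputable def treeEdges (r : V) (p : V → V) : Finset (Sym2 V) :=
  (Finset.univ.erase r).image (fun v => s(v, p v))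

open Classical in
/-- the edges outside of the tree -/
noncomputable def cotreeEdges (G : SimpleGraph V) (r : V) (p : V → V) : Finset (Sym2 V) :=
  G.edgeFinset \ treeEdges r p

open Classical in
/-- the vertices on edges outside of the tree -/
noncomputable def ends (G : SimpleGraph V) (p : V → V) : Finset V :=
  Finset.univ.filter (fun v => ∃ u, Cotree G p v u)

lemma mem_ends {v : V} : v ∈ ends G p ↔ ∃ u, Cotree G p v u := by
  classical
  simp [ends]

lemma mem_cotreeEdges (hp : IsParent G r p) {a b : V} :
    s(a, b) ∈ cotreeEdges G r p ↔ Cotree G p a b := by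
  classical
  unfold cotreeEdges treeEdges Cotree
  rw [Finset.mem_sdiff, mem_edgeFinset, mem_edgeSet, Finset.mem_image]
  constructor
  · rintro ⟨h1, h2⟩
    refine ⟨h1, ?_, ?_⟩
    · intro h3
      apply h2
      refine ⟨a, ?_, by rw [h3]⟩
      rw [Finset.mem_erase]
      refine ⟨?_, Finset.mem_univ _⟩
      rintro rfl
      rw [hp.root] at h3
      exact h1.ne h3
    · intro h3
      apply h2
      refine ⟨b, ?_, by rw [h3, Sym2.eq_swap]⟩
      rw [Finset.mem_erase]
      refine ⟨?_, Finset.mem_univ _⟩
      rintro rfl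
      rw [hp.root] at h3
      exact h1.ne h3.symm
  · rintro ⟨h1, h2, h3⟩
    refine ⟨h1, ?_⟩
    rintro ⟨v, -, hv⟩
    rw [Sym2.eq_iff] at hv
    rcases hv with ⟨rfl, h4⟩ | ⟨rfl, h4⟩
    · exact h2 h4
    · exact h3 h4

lemma card_cotreeEdges (hp : IsParent G r p) :
    (cotreeEdges G r p).card + Fintype.card V = Nat.card G.edgeSet + 1 := by
  classical
  have hsub : treeEdges r p ⊆ G.edgeFinset := by
    intro e he
    rw [treeEdges, Finset.mem_image] at he
    obtain ⟨v, hv, rfl⟩ := he
    rw [mem_edgeFinset, mem_edgeSet]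
    exact hp.adj v (Finset.ne_of_mem_erase hv)
  have hcard : (treeEdges r p).card = Fintype.card V - 1 := by
    rw [treeEdges, Finset.card_image_of_injOn, Finset.card_erase_of_mem (Finset.mem_univ _),
      Finset.card_univ]
    intro v hv u hu huv
    have hv' : v ≠ r := Finset.ne_of_mem_erase (Finset.mem_coe.1 hv)
    have hu' : u ≠ r := Finset.ne_of_mem_erase (Finset.mem_coe.1 hu)
    simp only at huv
    rw [Sym2.eq_iff] at huv
    rcases huv with ⟨h, -⟩ | ⟨h1, h2⟩
    · exact h
    · have h3 := hp.dist v hv'
      have h4 := hp.dist u hu'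
      rw [← h1] at h4
      rw [h2] at h3
      omega
  have h1 := Finset.card_sdiff_add_card_eq_card hsub
  have h2 : 0 < Fintype.card V := Fintype.card_pos_iff.2 ⟨r⟩
  have h3 : G.edgeFinset.card = Nat.card G.edgeSet := by
    rw [Nat.card_eq_fintype_card, edgeFinset_card]
  have h4 : (cotreeEdges G r p).card = (G.edgeFinset \ treeEdges r p).card := rfl
  omega

open Classical in
lemma card_ends_sym2 (e : Sym2 V) : (Finset.univ.filter (fun v : V => v ∈ e)).card ≤ 2 := by
  induction e using Sym2.ind with
  | _ a b =>
    refine (Finset.card_le_card (t := {a, b}) ?_).trans Finset.card_le_two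
    intro v hv
    simpa using hv

lemma card_ends (hp : IsParent G r p) : (ends G p).card ≤ 2 * (cotreeEdges G r p).card := by
  classical
  have hsub : ends G p ⊆ (cotreeEdges G r p).biUnion
      (fun e => Finset.univ.filter (fun v : V => v ∈ e)) := by
    intro v hv
    rw [mem_ends] at hv
    obtain ⟨u, hu⟩ := hv
    rw [Finset.mem_biUnion]
    exact ⟨s(v, u), (mem_cotreeEdges hp).2 hu, by simp⟩
  refine (Finset.card_le_card hsub).trans ?_
  refine (Finset.card_biUnion_le_card_mul _ _ 2 fun e _ => card_ends_sym2 e).trans ?_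
  omega

/-- a vertex on two edges outside of the tree -/
lemma card_ends_lt (hp : IsParent G r p) {w u u' : V} (h : Cotree G p w u)
    (h' : Cotree G p w u') (hne : u ≠ u') :
    (ends G p).card + 1 ≤ 2 * (cotreeEdges G r p).card := by
  classical
  have hmem := (mem_cotreeEdges hp).2 h
  have hmem' := (mem_cotreeEdges hp).2 h'
  have hsub : ends G p ⊆ ((cotreeEdges G r p).erase s(w, u)).biUnion
      (fun e => Finset.univ.filter (fun v : V => v ∈ e)) ∪ {u} := by
    intro v hv
    rw [mem_ends] at hv
    obtain ⟨x, hx⟩ := hv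
    have hx' := (mem_cotreeEdges hp).2 hx
    by_cases h1 : s(v, x) = s(w, u)
    · rw [Finset.mem_union]
      rw [Sym2.eq_iff] at h1
      rcases h1 with ⟨rfl, rfl⟩ | ⟨rfl, rfl⟩
      · left
        rw [Finset.mem_biUnion]
        refine ⟨s(v, u'), ?_, by simp⟩
        rw [Finset.mem_erase]
        refine ⟨?_, hmem'⟩
        intro h2
        rw [Sym2.eq_iff] at h2
        rcases h2 with ⟨-, h2⟩ | ⟨h2, h3⟩
        · exact hne h2.symm
        · exact h.1.ne h2
      · right
        simp
    · rw [Finset.mem_union]
      left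
      rw [Finset.mem_biUnion]
      exact ⟨s(v, x), Finset.mem_erase.2 ⟨h1, hx'⟩, by simp⟩
  have h2 : (((cotreeEdges G r p).erase s(w, u)).biUnion
      (fun e => Finset.univ.filter (fun v : V => v ∈ e))).card ≤
      ((cotreeEdges G r p).erase s(w, u)).card * 2 :=
    Finset.card_biUnion_le_card_mul _ _ 2 fun e _ => card_ends_sym2 e
  rw [Finset.card_erase_of_mem hmem] at h2
  have h3 : 0 < (cotreeEdges G r p).card := Finset.card_pos.2 ⟨_, hmem⟩
  have h4 := Finset.card_le_card hsub
  have h5 := Finset.card_union_le (((cotreeEdges G r p).erase s(w, u)).biUnion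
      (fun e => Finset.univ.filter (fun v : V => v ∈ e))) {u}
  rw [Finset.card_singleton] at h5
  omega

end count

/-- the leaves of the tree are ends of edges outside of the tree -/
lemma child_of_not_mem (hp : IsParent G r p) (h2 : ∀ v u : V, ∃ u', G.Adj v u' ∧ u' ≠ u) {v : V}
    (hv : v ≠ r) (hS : ¬ ∃ u, Cotree G p v u) : ∃ x, x ≠ r ∧ p x = v := by
  obtain ⟨u, h3, h4⟩ := h2 v (p v)
  by_cases h5 : p u = v
  · refine ⟨u, ?_, h5⟩
    rintro rfl
    rw [hp.root] at h5
    exact hv h5.symm
  · exact absurd ⟨u, h3, fun h => h4 h.symm, h5⟩ hS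

/-- the root together with the ends of the edges outside of the tree -/
lemma resolves_all [Fintype V] [DecidableEq V] (hG : G.Connected) (hp : IsParent G r p)
    (h2 : ∀ v u : V, ∃ u', G.Adj v u' ∧ u' ≠ u) :
    IsMixedResolving G (insert r (ends G p)) := by
  have hhor : ∀ a b, G.Adj a b → G.dist r a = G.dist r b → Cotree G p a b := by
    intro a b h hD
    refine ⟨h, ?_, ?_⟩
    · rintro rfl
      have har : a ≠ r := by
        rintro rfl
        exact h.ne hp.root.symm
      have := hp.dist a har
      omega
    · rintro rfl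
      have hbr : b ≠ r := by
        rintro rfl
        exact h.ne hp.root
      have := hp.dist b hbr
      omega
  apply resolves hG hp (Finset.mem_insert_self _ _)
  · intro v hv
    rw [Finset.mem_insert, mem_ends] at hv
    push Not at hv
    exact child_of_not_mem hp h2 hv.1 (by simpa using hv.2)
  · intro u v h _
    rw [Finset.mem_insert, mem_ends]
    exact Or.inr ⟨v, h⟩
  · intro a b h hD
    left
    rw [Finset.mem_insert, mem_ends]
    exact Or.inr ⟨b, hhor a b h hD⟩
  · intro a b h hD
    refine ⟨b, ?_, ?_⟩
    · rw [Finset.mem_insert, mem_ends]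
      exact Or.inr ⟨a, (hhor a b h hD).symm⟩
    · rw [dist_self]
      exact hG.pos_dist_of_ne h.ne.symm
  · intro a b h hD hb
    exfalso
    apply hb
    rw [Finset.mem_insert, mem_ends]
    exact Or.inr ⟨a, (hhor a b h hD).symm⟩

/-- one end can be omitted -/
lemma resolves_erase [Fintype V] [DecidableEq V] (hG : G.Connected) (hp : IsParent G r p)
    (h2 : ∀ v u : V, ∃ u', G.Adj v u' ∧ u' ≠ u) {w w' : V}
    (hwr : w ≠ r) (hw'r : w' ≠ r) (hD : G.dist r w' ≤ G.dist r w)
    (hnb : ∀ u, G.Adj w' u → u = w ∨ u = p w')
    (huniq : ∀ u, Cotree G p w u → u = w') (hchild : ∃ x, x ≠ r ∧ p x = w) :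
    IsMixedResolving G (insert r ((ends G p).erase w)) := by
  have hhor : ∀ a b, G.Adj a b → G.dist r a = G.dist r b → Cotree G p a b := by
    intro a b h hD
    refine ⟨h, ?_, ?_⟩
    · rintro rfl
      have har : a ≠ r := by
        rintro rfl
        exact h.ne hp.root.symm
      have := hp.dist a har
      omega
    · rintro rfl
      have hbr : b ≠ r := by
        rintro rfl
        exact h.ne hp.root
      have := hp.dist b hbr
      omega
  have hmem : ∀ v, v ≠ w → (∃ u, Cotree G p v u) → v ∈ insert r ((ends G p).erase w) := by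
    intro v hv h
    rw [Finset.mem_insert, Finset.mem_erase, mem_ends]
    exact Or.inr ⟨hv, h⟩
  have hnot : ∀ v, v ∉ insert r ((ends G p).erase w) → v ≠ r ∧ (v = w ∨ ¬ ∃ u, Cotree G p v u) := by
    intro v hv
    rw [Finset.mem_insert, Finset.mem_erase, mem_ends] at hv
    push Not at hv
    refine ⟨hv.1, ?_⟩
    by_cases h : v = w
    · exact Or.inl h
    · right
      simpa using hv.2 h
  have hleaf : ∀ v, v ∉ insert r ((ends G p).erase w) → ∃ x, x ≠ r ∧ p x = v := by
    intro v hv
    obtain ⟨h1, h3⟩ := hnot v hv
    rcases h3 with rfl | h3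
    · exact hchild
    · exact child_of_not_mem hp h2 h1 h3
  have hpD := hp.dist w' hw'r
  apply resolves hG hp (Finset.mem_insert_self _ _) hleaf
  · intro u v h hlt
    apply hmem u _ ⟨v, h⟩
    rintro rfl
    have := huniq v h
    subst this
    omega
  · intro a b h hab
    by_cases ha : a = w
    · right
      subst ha
      exact hmem b h.ne.symm ⟨a, (hhor a b h hab).symm⟩
    · left
      exact hmem a ha ⟨b, hhor a b h hab⟩
  · intro a b h hab
    by_cases hb : b = w
    · subst hb
      have ha : a = w' := huniq a (hhor a b h hab).symm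
      subst ha
      have hleaf' : ∀ v, v ∉ ((insert r ((ends G p).erase b) : Finset V) : Set V) →
          ∃ x, x ≠ r ∧ p x = v := fun v hv => hleaf v (fun h' => hv (Finset.mem_coe.2 h'))
      obtain ⟨k, t, ht, h3, h4⟩ := exists_desc hp hleaf' b
      refine ⟨t, Finset.mem_coe.1 ht, ?_⟩
      have h5 := iter_anc hG hp h3 h4
      have htb : t ≠ b := by
        rintro rfl
        have ht' : t ∈ insert r ((ends G p).erase t) := Finset.mem_coe.1 ht
        rw [Finset.mem_insert, Finset.mem_erase] at ht'
        rcases ht' with ht' | ht'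
        · exact hwr ht'
        · exact ht'.1 rfl
      have hta : t ≠ a := by
        rintro rfl
        have h6 : G.dist b t = 0 := by omega
        rw [hG.dist_eq_zero_iff] at h6
        exact htb h6.symm
      obtain ⟨u, h6, h7⟩ := exists_pred hG hta
      have h8 : G.dist t b = G.dist b t := dist_comm
      rcases hnb u h6.symm with rfl | rfl
      · omega
      · have h9 : G.dist r t ≤ G.dist r (p a) + G.dist (p a) t := hG.dist_triangle
        have h10 : G.dist t (p a) = G.dist (p a) t := dist_comm
        omega
    · refine ⟨b, hmem b hb ⟨a, (hhor a b h hab).symm⟩, ?_⟩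
      rw [SimpleGraph.dist_self]
      exact hG.pos_dist_of_ne h.ne.symm
  · intro a b h hab hb c hac hle
    obtain ⟨h3, h4⟩ := hnot b hb
    rcases h4 with rfl | h4
    · have ha : a = w' := huniq a (hhor a b h hab).symm
      subst ha
      rcases hnb c hac with rfl | rfl
      · rfl
      · omega
    · exact absurd ⟨a, (hhor a b h hab).symm⟩ h4

end tree

section final

variable {V : Type*} {G : SimpleGraph V}

/-- the root -/
lemma exists_root (hG : G.Connected) {w w' z : V} (h : G.Adj w w') (hz : G.Adj w' z)
    (hzw : z ≠ w) (hnb : ∀ u, G.Adj w' u → u = w ∨ u = z)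
    (hcut : (G.induce ({w'}ᶜ : Set V)).Connected) :
    ∃ r q : V, r ≠ w ∧ r ≠ w' ∧ G.Adj w q ∧ q ≠ w' ∧ G.dist r q + 1 = G.dist r w ∧
      G.dist r w' ≤ G.dist r w ∧ G.dist r z + 1 = G.dist r w' := by
  obtain ⟨P⟩ := hcut.preconnected ⟨w, h.ne⟩ ⟨z, hz.ne.symm⟩
  have h1 : G.dist w w' = 1 := dist_eq_one_iff_adj.2 h
  have h2 : G.dist z w' = 1 := dist_eq_one_iff_adj.2 hz.symm
  obtain ⟨d, -, hd1, hd2⟩ := P.exists_boundary_dart
    {v | G.dist v.1 w + 1 = G.dist v.1 w'} (by
      show G.dist w w + 1 = G.dist w w'
      rw [SimpleGraph.dist_self, h1]) (by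
      show ¬ (G.dist z w + 1 = G.dist z w')
      intro h3
      have h4 : G.dist z w = 0 := by omega
      rw [hG.dist_eq_zero_iff] at h4
      exact hzw h4)
  obtain ⟨⟨⟨u, hu⟩, ⟨r, hr⟩⟩, hadj⟩ := d
  have hur : G.Adj u r := hadj
  have hd1 : G.dist u w + 1 = G.dist u w' := hd1
  have hd2 : ¬ (G.dist r w + 1 = G.dist r w') := hd2
  have hrw' : r ≠ w' := hr
  have h3 : G.dist r w' ≤ G.dist r w := by
    have := dist_adj_le hG h r
    omega
  have hrw : r ≠ w := by
    rintro rfl
    rw [SimpleGraph.dist_self] at h3
    omega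
  have hstep : ∀ t, G.dist r t ≤ G.dist u t + 1 ∧ G.dist u t ≤ G.dist r t + 1 := by
    intro t
    have h5 := dist_adj_le hG hur t
    have h6 := dist_adj_le hG hur.symm t
    rw [dist_comm (u := r) (v := t), dist_comm (u := u) (v := t)]
    exact ⟨h5, h6⟩
  have hz' : G.dist r z + 1 = G.dist r w' := by
    obtain ⟨x, h5, h6⟩ := exists_pred hG hrw'
    rcases hnb x h5.symm with rfl | rfl
    · omega
    · exact h6
  obtain ⟨q, hq1, hq2⟩ := exists_pred hG hrw
  by_cases hq : q = w'
  · subst hq
    have h5 := hstep w
    have h6 := hstep q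
    by_cases huw : u = w
    · subst huw
      refine ⟨r, r, hrw, hrw', hur, hrw', ?_, h3, hz'⟩
      rw [SimpleGraph.dist_self, dist_eq_one_iff_adj.2 hur.symm]
    · obtain ⟨q', h7, h8⟩ := exists_pred hG huw
      refine ⟨r, q', hrw, hrw', h7.symm, ?_, ?_, h3, hz'⟩
      · rintro rfl
        omega
      · have h9 := hstep q'
        have h10 := dist_adj_le hG h7 r
        omega
  · exact ⟨r, q, hrw, hrw', hq1.symm, hq, hq2, h3, hz'⟩

/-- in a 2-connected graph every vertex has at least two neighbours -/
lemma two_neighbours (h : IsTwoConnected G) (v u : V) : ∃ u', G.Adj v u' ∧ u' ≠ u := by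
  classical
  obtain ⟨h3, hG, hcut⟩ := h
  have hfin : Finite V := Nat.finite_of_card_ne_zero (by omega)
  have := Fintype.ofFinite V
  rw [Nat.card_eq_fintype_card] at h3
  obtain ⟨x, hx⟩ : ∃ x : V, x ∉ ({v, u} : Finset V) := by
    by_contra hcon
    push Not at hcon
    have h4 : (Finset.univ : Finset V) ⊆ {v, u} := fun x _ => hcon x
    have h5 := Finset.card_le_card h4
    have h6 : ({v, u} : Finset V).card ≤ 2 := Finset.card_le_two
    rw [Finset.card_univ] at h5
    omega
  simp only [Finset.mem_insert, Finset.mem_singleton, not_or] at hx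
  by_cases huv : v = u
  · subst huv
    obtain ⟨P⟩ := hG.preconnected v x
    cases P with
    | nil => exact absurd rfl hx.1
    | cons h4 _ => exact ⟨_, h4, h4.ne.symm⟩
  · obtain ⟨P⟩ := (hcut u).preconnected ⟨v, huv⟩ ⟨x, hx.2⟩
    cases P with
    | nil => exact absurd rfl hx.1
    | @cons _ y _ h4 _ => exact ⟨y.1, h4, y.2⟩

/-- a connected 2-regular graph is a cycle -/
lemma iso_cycle [Fintype V] [DecidableRel G.Adj] (hG : G.Connected)
    (hdeg : ∀ v, G.degree v = 2) : ∃ n : ℕ, Nonempty (G ≃g cycleGraph n) := by
  classical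
  have hnac : ¬ G.IsAcyclic := by
    intro hac
    have ht : G.IsTree := ⟨hG, hac⟩
    have h1 := ht.card_edgeFinset
    have h2 := G.sum_degrees_eq_twice_card_edges
    simp only [hdeg, Finset.sum_const, Finset.card_univ, smul_eq_mul] at h2
    omega
  rw [isAcyclic_iff_free_cycleGraph] at hnac
  push Not at hnac
  obtain ⟨n, hn, hfree⟩ := hnac
  obtain ⟨f⟩ := hfree
  obtain ⟨m, rfl⟩ : ∃ m, n = m + 3 := ⟨n - 3, by omega⟩
  have hadj : ∀ i j, (cycleGraph (m + 3)).Adj i j → G.Adj (f i) (f j) :=
    fun i j h => f.toHom.map_adj h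
  have hinj : Function.Injective f := f.injective
  have hnbr : ∀ i u, G.Adj (f i) u → ∃ j, (cycleGraph (m + 3)).Adj i j ∧ f j = u := by
    intro i u h
    have hsub : ((cycleGraph (m + 3)).neighborFinset i).image f ⊆ G.neighborFinset (f i) := by
      intro x hx
      rw [Finset.mem_image] at hx
      obtain ⟨j, hj, rfl⟩ := hx
      rw [mem_neighborFinset] at hj ⊢
      exact hadj i j hj
    have hcard : (G.neighborFinset (f i)).card ≤
        (((cycleGraph (m + 3)).neighborFinset i).image f).card := by
      rw [Finset.card_image_of_injective _ hinj, card_neighborFinset_eq_degree,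
        card_neighborFinset_eq_degree, hdeg, cycleGraph_degree_three_le]
    have heq := Finset.eq_of_subset_of_card_le hsub hcard
    have hu : u ∈ G.neighborFinset (f i) := by rwa [mem_neighborFinset]
    rw [← heq, Finset.mem_image] at hu
    obtain ⟨j, hj, hju⟩ := hu
    exact ⟨j, by rwa [mem_neighborFinset] at hj, hju⟩
  have hsurj : Function.Surjective f := by
    intro x
    by_contra hcon
    obtain ⟨P⟩ := hG.preconnected (f 0) x
    obtain ⟨d, -, hd1, hd2⟩ := P.exists_boundary_dart (Set.range f) ⟨0, rfl⟩ hcon
    obtain ⟨i, hi⟩ := hd1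
    apply hd2
    have := d.adj
    rw [← hi] at this
    obtain ⟨j, -, hj⟩ := hnbr i _ this
    exact ⟨j, hj⟩
  refine ⟨m + 3, ⟨(?_ : cycleGraph (m + 3) ≃g G).symm⟩⟩
  refine ⟨Equiv.ofBijective f ⟨hinj, hsurj⟩, ?_⟩
  intro i j
  show G.Adj (f i) (f j) ↔ _
  constructor
  · intro h
    obtain ⟨j', h1, h2⟩ := hnbr i _ h
    rwa [← hinj h2]
  · exact hadj i j

lemma mdim_le {S : Finset V} (h : IsMixedResolving G S) : mdim G ≤ S.card :=
  Nat.sInf_le ⟨S, rfl, h⟩

/-- all vertices together resolve -/
lemma resolves_univ [Fintype V] (hG : G.Connected) :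
    IsMixedResolving G (Finset.univ : Finset V) := by
  have hVE : ∀ (x : V) (e : G.edgeSet), ∃ t ∈ (Finset.univ : Finset V),
      elementDist G t (Sum.inl x) ≠ elementDist G t (Sum.inr e) := by
    rintro x ⟨e, he⟩
    induction e using Sym2.ind with
    | _ a b =>
      have hab : G.Adj a b := he
      by_cases hxa : x = a
      · subst hxa
        refine ⟨b, Finset.mem_univ _, ?_⟩
        rw [elementDist_inl, elementDist_inr _ _ _ hab, SimpleGraph.dist_self,
          min_eq_right (Nat.zero_le _)]
        exact (hG.pos_dist_of_ne hab.ne.symm).ne'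
      by_cases hxb : x = b
      · subst hxb
        refine ⟨a, Finset.mem_univ _, ?_⟩
        rw [elementDist_inl, elementDist_inr _ _ _ hab, SimpleGraph.dist_self,
          min_eq_left (Nat.zero_le _)]
        exact (hG.pos_dist_of_ne hab.ne).ne'
      refine ⟨x, Finset.mem_univ _, ?_⟩
      rw [elementDist_inl, elementDist_inr _ _ _ hab, SimpleGraph.dist_self]
      exact (lt_min (hG.pos_dist_of_ne hxa) (hG.pos_dist_of_ne hxb)).ne
  intro x y hxy
  rcases x with x | x <;> rcases y with y | y
  · refine ⟨x, Finset.mem_univ _, ?_⟩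
    rw [elementDist_inl, elementDist_inl, SimpleGraph.dist_self]
    exact (hG.pos_dist_of_ne (fun h => hxy (congrArg Sum.inl h))).ne
  · exact hVE x y
  · obtain ⟨t, ht, h⟩ := hVE y x
    exact ⟨t, ht, h.symm⟩
  · obtain ⟨e, he⟩ := x
    obtain ⟨f, hf⟩ := y
    have hne : e ≠ f := fun h => hxy (congrArg Sum.inr (Subtype.ext h))
    induction e using Sym2.ind with
    | _ a b =>
      induction f using Sym2.ind with
      | _ c d =>
        have hab : G.Adj a b := he
        have hcd : G.Adj c d := hf
        by_cases ha : a = c ∨ a = d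
        · by_cases hb : b = c ∨ b = d
          · exfalso
            have := hab.ne
            rcases ha with rfl | rfl <;> rcases hb with rfl | rfl
            · exact this rfl
            · exact hne rfl
            · exact hne Sym2.eq_swap
            · exact this rfl
          · push Not at hb
            refine ⟨b, Finset.mem_univ _, ?_⟩
            rw [elementDist_inr _ _ _ hab, elementDist_inr _ _ _ hcd, SimpleGraph.dist_self,
              min_eq_right (Nat.zero_le _)]
            exact (lt_min (hG.pos_dist_of_ne hb.1) (hG.pos_dist_of_ne hb.2)).ne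
        · push Not at ha
          refine ⟨a, Finset.mem_univ _, ?_⟩
          rw [elementDist_inr _ _ _ hab, elementDist_inr _ _ _ hcd, SimpleGraph.dist_self,
            min_eq_left (Nat.zero_le _)]
          exact (lt_min (hG.pos_dist_of_ne ha.1) (hG.pos_dist_of_ne ha.2)).ne

lemma mdim_attained [Finite V] (hG : G.Connected) :
    ∃ S : Finset V, S.card = mdim G ∧ IsMixedResolving G S := by
  classical
  have := Fintype.ofFinite V
  exact Nat.sInf_mem (s := {k : ℕ | ∃ S : Finset V, S.card = k ∧ IsMixedResolving G S})
    ⟨_, Finset.univ, rfl, resolves_univ hG⟩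

/-- **The conjecture for 2-connected graphs.** Let `G` be a finite 2-connected graph which is not a
cycle. The smallest size `mdim G` of a mixed resolving set of `G` (which is attained) is at most
twice the cyclomatic number `m - n + 1` of `G`. -/
theorem result {V : Type*} [Finite V] (G : SimpleGraph V) (h2 : IsTwoConnected G)
    (hcyc : ∀ n : ℕ, ¬ Nonempty (G ≃g cycleGraph n)) :
    (∃ S : Finset V, S.card = mdim G ∧ IsMixedResolving G S) ∧
      (mdim G : ℤ) ≤ 2 * cyclomatic G := by
  classical
  refine ⟨mdim_attained h2.2.1, ?_⟩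
  have := Fintype.ofFinite V
  obtain ⟨hG, hcut⟩ := h2.2
  have hnb := two_neighbours h2
  have hE : G.edgeFinset.card = Nat.card G.edgeSet := by
    rw [Nat.card_eq_fintype_card, edgeFinset_card]
  have hdeg2 : ∀ v, 2 ≤ G.degree v := by
    intro v
    obtain ⟨a, ha, -⟩ := hnb v v
    obtain ⟨b, hb, hba⟩ := hnb v a
    rw [← card_neighborFinset_eq_degree]
    have hsub : ({a, b} : Finset V) ⊆ G.neighborFinset v := by
      intro x hx
      rw [Finset.mem_insert, Finset.mem_singleton] at hx
      rw [mem_neighborFinset]
      rcases hx with rfl | rfl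
      · exact ha
      · exact hb
    have h3 := Finset.card_le_card hsub
    rwa [Finset.card_pair (Ne.symm hba)] at h3
  by_cases hall : ∀ v, 3 ≤ G.degree v
  · have h3 := G.sum_degrees_eq_twice_card_edges
    have h4 : Fintype.card V * 3 ≤ ∑ v, G.degree v := by
      rw [← Finset.card_univ, ← smul_eq_mul]
      exact Finset.card_nsmul_le_sum _ _ _ fun v _ => hall v
    have h5 := mdim_le (resolves_univ hG)
    rw [Finset.card_univ] at h5
    unfold cyclomatic
    rw [Nat.card_eq_fintype_card (α := V)]
    omega
  · push Not at hall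
    obtain ⟨v0, hv0⟩ := hall
    have hv0' : G.degree v0 = 2 := le_antisymm (by omega) (hdeg2 v0)
    obtain ⟨b0, hb0⟩ : ∃ b, G.degree b ≠ 2 := by
      by_contra hcon
      push Not at hcon
      obtain ⟨n, hn⟩ := iso_cycle hG hcon
      exact hcyc n hn
    obtain ⟨P⟩ := hG.preconnected v0 b0
    obtain ⟨d, -, hd1, hd2⟩ := P.exists_boundary_dart {v | G.degree v = 2} hv0' hb0
    obtain ⟨⟨w', w⟩, hw'w⟩ := d
    have hadj : G.Adj w' w := hw'w
    have hw' : G.degree w' = 2 := hd1
    have hw : G.degree w ≠ 2 := hd2
    have hw3 : 3 ≤ G.degree w := by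
      have := hdeg2 w
      omega
    obtain ⟨z, hz, hzw⟩ := hnb w' w
    have hN : G.neighborFinset w' = {w, z} := by
      symm
      apply Finset.eq_of_subset_of_card_le
      · intro x hx
        rw [Finset.mem_insert, Finset.mem_singleton] at hx
        rw [mem_neighborFinset]
        rcases hx with rfl | rfl
        · exact hadj
        · exact hz
      · rw [card_neighborFinset_eq_degree, hw', Finset.card_pair (Ne.symm hzw)]
    have hN' : ∀ u, G.Adj w' u → u = w ∨ u = z := by
      intro u hu
      have : u ∈ G.neighborFinset w' := by rwa [mem_neighborFinset]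
      rw [hN, Finset.mem_insert, Finset.mem_singleton] at this
      exact this
    obtain ⟨r, q, hrw, hrw', hwq, hqw', hq, hle, hzD⟩ :=
      exists_root hG hadj.symm hz hzw hN' (hcut w')
    obtain ⟨p, hp, hpw⟩ := exists_parent (r := r) hG (Ne.symm hrw) hwq hq
    have hpw' : p w' = z := by
      have h3 := hp.adj w' (Ne.symm hrw')
      have h4 := hp.dist w' (Ne.symm hrw')
      rcases hN' _ h3 with h5 | h5
      · rw [h5] at h4
        omega
      · exact h5
    have hcot : Cotree G p w w' := ⟨hadj.symm, by rw [hpw]; exact hqw', by rw [hpw']; exact hzw⟩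
    have hcard := card_cotreeEdges hp
    have hfin : ∀ R : Finset V, IsMixedResolving G R → R.card ≤ 2 * (cotreeEdges G r p).card →
        (mdim G : ℤ) ≤ 2 * cyclomatic G := by
      intro R h3 h4
      have h5 := mdim_le h3
      unfold cyclomatic
      rw [Nat.card_eq_fintype_card (α := V)]
      omega
    by_cases hshare : ∃ u, Cotree G p w u ∧ u ≠ w'
    · obtain ⟨u, hu, huw'⟩ := hshare
      have h3 := card_ends_lt hp hu hcot huw'
      apply hfin _ (resolves_all hG hp hnb)
      have h4 := Finset.card_insert_le r (ends G p)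
      omega
    · push Not at hshare
      have hchild : ∃ x, x ≠ r ∧ p x = w := by
        obtain ⟨x, hx, hxn⟩ : ∃ x ∈ G.neighborFinset w, x ∉ ({q, w'} : Finset V) := by
          by_contra hcon
          push Not at hcon
          have h3 : G.neighborFinset w ⊆ {q, w'} := fun x hx => hcon x hx
          have h4 := Finset.card_le_card h3
          rw [card_neighborFinset_eq_degree] at h4
          have h5 : ({q, w'} : Finset V).card ≤ 2 := Finset.card_le_two
          omega
        rw [mem_neighborFinset] at hx
        simp only [Finset.mem_insert, Finset.mem_singleton, not_or] at hxn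
        have hpx : p x = w := by
          by_contra hcon
          exact hxn.2 (hshare x ⟨hx, by rw [hpw]; exact Ne.symm hxn.1, hcon⟩)
        refine ⟨x, ?_, hpx⟩
        rintro rfl
        rw [hp.root] at hpx
        exact hrw hpx
      have h3 := resolves_erase hG hp hnb (Ne.symm hrw) (Ne.symm hrw') hle
        (by intro u hu; rw [hpw']; exact hN' u hu) hshare hchild
      apply hfin _ h3
      have h4 := Finset.card_insert_le r ((ends G p).erase w)
      have hmem : w ∈ ends G p := mem_ends.2 ⟨w', hcot⟩
      rw [Finset.card_erase_of_mem hmem] at h4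
      have h5 := card_ends hp
      have h6 : 0 < (ends G p).card := Finset.card_pos.2 ⟨w, hmem⟩
      omega

end final

end Pool.Agent.Results.MP_ca4ce9_co.TwoConnected
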